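import Pool.Agent.ChB.FinalB

/-!
# Closed affine 4-manifolds and the first Betti numbers of finite coverings

Let `M` be a closed affine 4-manifold, triangulated by affine simplices, with a regular covering
`|K|` which is connected and has `H^1(|K|; ℝ) = 0` (for instance the universal covering) and group
of deck transformations `Γ`.  We prove: for every `ε > 0` there is a subgroup `Γ₀` of finite index in `Γ`
such that for every subgroup `H` of finite index in `Γ₀`

`(8 |χ(M)| - 3 χ(M) - ε) [Γ : H] ≤ 6 b₁(H)`,

where `b₁(H)` is the first rational Betti number of `H`.  So if `χ(M) ≠ 0` then `b₁(H) ≥ (4/5) [Γ : H]` for all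
sufficiently deep subgroups of finite index; in particular Chern's conjecture holds for `M` if
the first Betti numbers of the finite coverings of `M` do not grow linearly in this strong sense, for
instance if `π₁(M)` is residually finite with vanishing first `L²`-Betti number.

The triangulated closed affine manifold is given by `Pool.Agent.ChP.AffineTriangulation 4` (see
`Pool/Agent/ChP/TriDefs.lean`).  `Connected` and `H1Zero` are defined in `Pool/Agent/ChS/Defs.lean`,
`HomR` in `Pool/Agent/ChL/Defs.lean`.
-/

namespace Pool.Agent.Results.MP_1fa9a4_gt.BettiGrowth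

open Pool.Agent.ChP Pool.Agent.ChS Pool.Agent.ChL

/-- The first rational Betti number of a group: the dimension of the space of its homomorphisms
to `ℚ`. -/
noncomputable def b₁ (H : Type) [Group H] : ℕ := Module.finrank ℚ (HomR ℚ H)

/-- Let `K` be a triangulated covering, connected and with vanishing first real cohomology, of a
closed affine 4-manifold.  For every `ε > 0` there is a subgroup of finite index of the group of deck
transformations such that for all its subgroups `H` of finite index
`(8 |χ| - 3 χ - ε) [Γ : H] ≤ 6 b₁(H)`. -/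
theorem result (K : AffineTriangulation 4) (hc : Connected K) (h1 : H1Zero K) (ε : ℝ)
    (hε : 0 < ε) :
    ∃ Γ₀ : Subgroup K.Γ, Γ₀.FiniteIndex ∧ ∀ H : Subgroup K.Γ, H ≤ Γ₀ → H.FiniteIndex →
      (8 * |(K.eulerChar : ℝ)| - 3 * K.eulerChar - ε) * H.index ≤ 6 * b₁ H := by
  obtain ⟨N, hN⟩ := exists_nat_gt (1 / ε)
  obtain ⟨Γ₀, hΓ₀, hle⟩ := ChB.final_betti K hc h1 N
  refine ⟨Γ₀, hΓ₀, fun H hH hHi => ?_⟩
  have h := hle H hH hHi
  have h2 : (N : ℝ) * (8 * (H.index * |(K.eulerChar : ℝ)|) + 6) ≤
      N * (3 * (H.index * K.eulerChar) + 6 * (b₁ H : ℝ)) + H.index := by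
    have h3 : ((N * (8 * (H.index * |K.eulerChar|) + 6) : ℤ) : ℝ) ≤
      ((N * (3 * (H.index * K.eulerChar) + 6 * (Module.finrank ℚ (HomR ℚ H) : ℤ)) +
          H.index : ℤ) : ℝ) := by exact_mod_cast h
    push_cast at h3
    exact h3
  have hN0 : (0 : ℝ) < N := lt_trans (by positivity) hN
  have h4 : (H.index : ℝ) ≤ N * (ε * H.index) := by
    have h5 : 1 ≤ (N : ℝ) * ε := by
      have := (div_lt_iff₀ hε).1 hN
      linarith
    have h6 : (0 : ℝ) ≤ H.index := Nat.cast_nonneg _
    nlinarith
  have h7 : (N : ℝ) * ((8 * |(K.eulerChar : ℝ)| - 3 * K.eulerChar - ε) * H.index) ≤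
      N * (6 * b₁ H) := by
    nlinarith
  exact le_of_mul_le_mul_left h7 hN0

end Pool.Agent.Results.MP_1fa9a4_gt.BettiGrowth
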