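import Pool.Agent.Hhelper78.Chern.Affine
import Pool.Agent.Hhelper78.Chern.Linear

open Pool.Agent.Hhelper78.Chern

/-- Let `M` be a closed affine manifold of dimension `n ≥ 1`, given by a developing pair, no
finite cover of which has a nowhere vanishing vector field (that is, a counterexample to Chern's
conjecture).  Then every nonempty convex set invariant under the affine holonomy of a finite index
subgroup `H` of the deck group is an affine subspace `p + L`, which is everything or has dimension
between `2` and `n - 2`, and the closed affine manifold `dev⁻¹(p + L)/H` is again a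
counterexample. -/
theorem Pool.Agent.Results.MP_1fa9a4_gt.InvariantConvexSets.result (E : Type)
    [NormedAddCommGroup E] [InnerProductSpace ℝ E] [FiniteDimensional ℝ E]
    (hn : 1 ≤ Module.finrank ℝ E) (M : ClosedAffineManifold E) (hM : ¬ VirtuallyNonvanishing M)
    (H : Subgroup M.deck) (hH : H.FiniteIndex) (C : Set E) (hC : Convex ℝ C) (hne : C.Nonempty)
    (hinv : ∀ g ∈ H, ∀ x ∈ C, M.hol g x ∈ C) :
    ∃ (p : E) (L : Submodule ℝ E) (M' : ClosedAffineManifold L), IsOver M H p L M' ∧
      C = {x | x - p ∈ L} ∧ 2 ≤ Module.finrank ℝ L ∧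
      (L = ⊤ ∨ Module.finrank ℝ L + 2 ≤ Module.finrank ℝ E) ∧ ¬ VirtuallyNonvanishing M' := by
  have : Nontrivial E := Module.nontrivial_of_finrank_pos (R := ℝ) hn
  obtain ⟨p, L, h, hCL, h2, hM'⟩ := convex_affine hH hM C hC hne hinv
  refine ⟨p, L, subManifold hH h, isOver_subManifold hH h, hCL, h2, ?_, hM'⟩
  by_cases htop : L = ⊤
  · exact Or.inl htop
  · right
    have hlt : Module.finrank ℝ L < Module.finrank ℝ E := Submodule.finrank_lt htop
    by_contra hcon
    exact hM (vnv_of_hyperplane M H hH L (by omega) fun g hg v hv => h.lin hg hv)
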