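import Pool.Agent.Hhelper78.Chern.Normal
import Pool.Agent.Hhelper78.Chern.Linear

open Pool.Agent.Hhelper78.Chern

namespace Pool.Agent.Results.MP_1fa9a4_gt.IrreduciblePiece

variable {E : Type} [NormedAddCommGroup E] [InnerProductSpace ℝ E]

/-- The affine holonomy action of the deck group on the model space. -/
def act (M : ClosedAffineManifold E) (g : M.deck) (x : E) : E := M.hol g x

/-- The linear holonomy action of the deck group on the model space. -/
def lin (M : ClosedAffineManifold E) (g : M.deck) (v : E) : E := (M.hol g).linear v

/-- The holonomy of `H` preserves no nonempty convex set except the whole space. -/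
def ConvexIrreducible (M : ClosedAffineManifold E) (H : Subgroup M.deck) : Prop :=
  ∀ C : Set E, Convex ℝ C → C.Nonempty → (∀ g ∈ H, ∀ x ∈ C, act M g x ∈ C) → C = Set.univ

/-- Nonempty convex sets of vectors invariant under the linear holonomy of `H` contain zero. -/
def VectorBalanced (M : ClosedAffineManifold E) (H : Subgroup M.deck) : Prop :=
  ∀ W : Set E, Convex ℝ W → W.Nonempty → (∀ g ∈ H, ∀ v ∈ W, lin M g v ∈ W) → 0 ∈ W

/-- Nonempty convex sets of linear functionals invariant under the linear holonomy of `H` contain
zero. -/
def CovectorBalanced (M : ClosedAffineManifold E) (H : Subgroup M.deck) : Prop :=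
  ∀ W : Set (E →L[ℝ] ℝ), Convex ℝ W → W.Nonempty →
    (∀ g ∈ H, ∀ f ∈ W, ∀ f' : E →L[ℝ] ℝ, (∀ v, f' v = f (lin M g v)) → f' ∈ W) → 0 ∈ W

/-- Every affine self-map of `E` other than the identity has infinitely many conjugates under the
holonomy of `H`. -/
def InfiniteConjugates (M : ClosedAffineManifold E) (H : Subgroup M.deck) : Prop :=
  ∀ A : E →ᵃ[ℝ] E, (∃ x, A x ≠ x) →
    {B : E →ᵃ[ℝ] E | ∃ g ∈ H, ∀ x, B x = act M g (A (act M g⁻¹ x))}.Infinite

/-- `H` normalises the subgroup `N` of the deck group. -/
def Normalises (M : ClosedAffineManifold E) (H N : Subgroup M.deck) : Prop :=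
  ∀ g ∈ H, ∀ a ∈ N, g * a * g⁻¹ ∈ N

/-- If a subgroup of the deck group is normalised by `H` and some element of it acts nontrivially
on `E`, all its orbits in `E` are unbounded. -/
def NormalUnbounded (M : ClosedAffineManifold E) (H : Subgroup M.deck) : Prop :=
  ∀ N : Subgroup M.deck, Normalises M H N → (∃ a ∈ N, ∃ x, act M a x ≠ x) →
    ∀ x, ¬ Bornology.IsBounded {y | ∃ a ∈ N, y = act M a x}

/-- If a subgroup of the deck group is normalised by `H` and acts on `E` by commuting maps, then
its linear holonomy is unipotent. -/
def AbelianUnipotent (M : ClosedAffineManifold E) (H : Subgroup M.deck) : Prop :=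
  ∀ N : Subgroup M.deck, Normalises M H N →
    (∀ a ∈ N, ∀ b ∈ N, ∀ x, act M a (act M b x) = act M b (act M a x)) →
    ∀ a ∈ N, ∃ k : ℕ, ∀ v, (fun w => lin M a w - w)^[k] v = 0

/-- The conjunction of the six properties above. -/
def StronglyIrreducible (M : ClosedAffineManifold E) (H : Subgroup M.deck) : Prop :=
  ConvexIrreducible M H ∧ VectorBalanced M H ∧ CovectorBalanced M H ∧ InfiniteConjugates M H ∧
    NormalUnbounded M H ∧ AbelianUnipotent M H

/-- The closed affine manifold has no virtual vector field, and the holonomy of every finite index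
subgroup has the six properties above. -/
def IrreducibleCounterexample (M : ClosedAffineManifold E) : Prop :=
  ¬ VirtuallyNonvanishing M ∧ ∀ H : Subgroup M.deck, H.FiniteIndex → StronglyIrreducible M H

end Pool.Agent.Results.MP_1fa9a4_gt.IrreduciblePiece

open Pool.Agent.Results.MP_1fa9a4_gt.IrreduciblePiece in
/-- Let `M` be a closed affine manifold of dimension `n ≥ 1`, given by a developing pair, no
finite cover of which has a nowhere vanishing vector field (that is, a counterexample to Chern's
conjecture).  Then there are a finite index subgroup `H` of the deck group and an affine subspace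
`p + L` invariant under the holonomy of `H` such that the closed affine manifold
`M' = dev⁻¹(p + L)/H` is a counterexample and, for every finite index subgroup `H'` of its deck
group,
* every nonempty convex set invariant under the holonomy of `H'` is the whole space;
* every nonempty convex set of vectors, or of linear functionals, invariant under the linear
  holonomy of `H'` contains zero;
* every affine self-map other than the identity has infinitely many conjugates under `H'`;
* a subgroup normalised by `H'` whose holonomy is nontrivial has only unbounded orbits;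
* a subgroup normalised by `H'` whose holonomy is commutative has unipotent holonomy. -/
theorem Pool.Agent.Results.MP_1fa9a4_gt.IrreduciblePiece.result (E : Type)
    [NormedAddCommGroup E] [InnerProductSpace ℝ E] [FiniteDimensional ℝ E]
    (hn : 1 ≤ Module.finrank ℝ E) (M : ClosedAffineManifold E)
    (hM : ¬ VirtuallyNonvanishing M) :
    ∃ (H : Subgroup M.deck) (p : E) (L : Submodule ℝ E) (M' : ClosedAffineManifold L),
      H.FiniteIndex ∧ IsOver M H p L M' ∧ 2 ≤ Module.finrank ℝ L ∧
      (L = ⊤ ∨ Module.finrank ℝ L + 2 ≤ Module.finrank ℝ E) ∧ IrreducibleCounterexample M' := by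
  have : Nontrivial E := Module.nontrivial_of_finrank_pos (R := ℝ) hn
  obtain ⟨H, hH, p, L, h, hI⟩ := exists_irred hM
  have h2 : 2 ≤ Module.finrank ℝ L := two_le_of_subInv hH h hM
  have : Nontrivial L := Module.nontrivial_of_finrank_pos (R := ℝ) (by omega)
  refine ⟨H, p, L, subManifold hH h, hH, isOver_subManifold hH h, h2, ?_, hI.1,
    fun H' hH' => ⟨?_, ?_, ?_, ?_, ?_, ?_⟩⟩
  · by_cases htop : L = ⊤
    · exact Or.inl htop
    · right
      have hlt : Module.finrank ℝ L < Module.finrank ℝ E := Submodule.finrank_lt htop
      by_contra hcon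
      exact hM (vnv_of_hyperplane M H hH L (by omega) fun g hg v hv => h.lin hg hv)
  · intro C hC hne hinv
    obtain ⟨p', L', h', hC', -, -⟩ := convex_affine hH' hI.1 C hC hne hinv
    have htop := hI.2 H' hH' p' L' h'
    rw [hC', htop]
    exact Set.eq_univ_of_forall fun x => (Submodule.mem_top : x - p' ∈ (⊤ : Submodule ℝ L))
  · intro W hW hne hinv
    by_contra h0
    exact hI.1 (vnv_of_convex _ H' hH' W hW hne h0 hinv)
  · intro W hW hne hinv
    by_contra h0
    exact hI.1 (vnv_of_dual_convex _ H' hH' W hW hne h0 fun g hg f hf =>
      hinv g hg f hf _ fun v => dualMap_apply _ f v)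
  · intro A hA
    exact conj_infinite hI hH' A hA
  · intro N hN hne x
    refine orbit_unbounded hI hH' N hN ?_ x
    obtain ⟨a, ha, y, hy⟩ := hne
    refine ⟨a, ha, fun h1 => hy ?_⟩
    change (subManifold hH h).hol a y = y
    rw [h1]
    rfl
  · intro N hN hab a ha
    obtain ⟨k, hk⟩ := unipotent hI hH' N hN
      (fun a ha b hb => AffineEquiv.ext fun x => hab a ha b hb x) a ha
    refine ⟨k, fun v => ?_⟩
    have h1 : ∀ (n : ℕ) (v : L), (fun w => lin (subManifold hH h) a w - w)^[n] v =
        (((((subManifold hH h).hol a).linear : L →ₗ[ℝ] L) - 1) ^ n) v := by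
      intro n
      induction n with
      | zero => intro v; rfl
      | succ n ih =>
        intro v
        rw [Function.iterate_succ_apply, ih, pow_succ]
        rfl
    rw [h1, hk]
    rfl
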