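import Pool.Agent.ChP.ChiGen

/-!
# Closed affine manifolds whose linear holonomy preserves a polynomial

Let `M` be a closed affine `n`-manifold, triangulated by affine simplices.  If the linear holonomy
of a finite covering of `M` preserves a linear subspace `W` of `ℝ^n` and, up to scalars, a
homogeneous polynomial of positive degree on `W` which is not zero, then the Euler characteristic
of `M` is zero.

The triangulated closed affine manifold is given by `Pool.Agent.ChP.AffineTriangulation n` (see
`Pool/Agent/ChP/TriDefs.lean`): a simplicial complex with a free cocompact action of the group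
`Γ` of deck transformations, the developing map on its vertices, and the affine holonomy.
-/

namespace Pool.Agent.Results.MP_1fa9a4_gt.PolynomialHolonomy

open Pool.Agent.ChP

/-- Let `K` be a triangulated closed affine manifold, `H` a finite index subgroup of its group of
deck transformations, `W` a subspace of `ℝ^n` invariant under the linear holonomy of `H`, and `f`
a homogeneous complex polynomial of degree `d > 0`, not vanishing identically on `W`, with
`f (g v) = c f(v)` for `v ∈ W` for every `g` in the linear holonomy of `H`, with a scalar `c`
depending on `g`.  Then the Euler characteristic of the manifold vanishes. -/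
theorem result {n : ℕ} (K : AffineTriangulation n)
    (H : Subgroup K.Γ) (hH : H.FiniteIndex)
    (W : Submodule ℝ (Fin n → ℝ)) (hW : ∀ γ ∈ H, ∀ v ∈ W, (K.hol γ).linear v ∈ W)
    {d : ℕ} (hd : 0 < d) (f : MvPolynomial (Fin n) ℂ) (hf : f.IsHomogeneous d)
    (h0 : ∃ v ∈ W, MvPolynomial.eval (fun i => (v i : ℂ)) f ≠ 0)
    (h : ∀ γ ∈ H, ∃ c : ℂ, ∀ v ∈ W,
      MvPolynomial.eval (fun i => ((K.hol γ).linear v i : ℂ)) f =
        c * MvPolynomial.eval (fun i => (v i : ℂ)) f) :
    K.eulerChar = 0 :=
  K.eulerChar_eq_zero_of_virtual H hH W hW hd f hf h0 h

end Pool.Agent.Results.MP_1fa9a4_gt.PolynomialHolonomy
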