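import Pool.Agent.ChS.FinalSd

/-!
# Chern's conjecture in dimension 4 and the number of generators of finite index subgroups

Let `M` be a closed affine 4-manifold, triangulated by affine simplices, with a regular covering
`|K|` which is connected and has `H^1(|K|; ℝ) = 0` (for instance the universal covering) and group
of deck transformations `Γ`.  Let `H` be a subgroup of finite index `k` in `Γ`, generated by a finite
set `S`, and let `Z^1(H; W)` be the space of crossed homomorphisms of `H` with values in the
alternating bilinear forms on `ℝ^4`, twisted by `|det|^(1/2)`.  Then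

`8 k |χ(M)| + 6 ≤ 3 k χ(M) + dim Z^1(H; W)` and `dim Z^1(H; W) ≤ 6 |S|`.

In particular `χ(M) = 0` if `6 |S| < 5 k + 6`, i.e. `|S| - 1 < (5/6) k`, for some `H` and `S`: a closed
affine 4-manifold whose fundamental group has rank gradient less than `5/6` has Euler
characteristic zero.

The triangulated closed affine manifold is given by `Pool.Agent.ChP.AffineTriangulation 4` (see
`Pool/Agent/ChP/TriDefs.lean`).  `Connected`, `H1Zero` and `act` are defined in
`Pool/Agent/ChS/Defs.lean`.
-/

namespace Pool.Agent.Results.MP_1fa9a4_gt.RankGradient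

open Matrix Pool.Agent.ChP Pool.Agent.ChS

/-- The matrix of the linear part of an affine bijection of `ℝ^4`. -/
noncomputable def linMat (g : (Fin 4 → ℝ) ≃ᵃ[ℝ] (Fin 4 → ℝ)) : Matrix (Fin 4) (Fin 4) ℝ :=
  fun i j => g.linear (Pi.single j 1) i

/-- The crossed homomorphisms `z` of `G` with values in the alternating bilinear forms on `ℝ^4`,
twisted by `|det|^(1/2)`: `z (g h) = z g + ρ(g) · z h` with `g · A = |det g|^(1/2) (g⁻¹)ᵀ A g⁻¹`. -/
noncomputable def CrossedHoms {G : Type} [Group G] (ρ : G → Matrix (Fin 4) (Fin 4) ℝ) :
    Submodule ℝ (G → Matrix (Fin 4) (Fin 4) ℝ) where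
  carrier := {z | (∀ g, (z g)ᵀ = -z g) ∧ ∀ g h, z (g * h) = z g + act (ρ g) (z h)}
  add_mem' := by
    rintro a b ⟨ha, ha'⟩ ⟨hb, hb'⟩
    refine ⟨fun g => ?_, fun g h => ?_⟩
    · rw [Pi.add_apply, Matrix.transpose_add, ha, hb, neg_add]
    · simp only [Pi.add_apply]
      rw [ha', hb']
      unfold act
      rw [Matrix.mul_add, Matrix.add_mul, smul_add]
      abel
  zero_mem' := by
    refine ⟨fun g => ?_, fun g h => ?_⟩
    · simp
    · simp [act]
  smul_mem' := by
    rintro c a ⟨ha, ha'⟩
    refine ⟨fun g => ?_, fun g h => ?_⟩
    · rw [Pi.smul_apply, Matrix.transpose_smul, ha, smul_neg]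
    · simp only [Pi.smul_apply]
      rw [ha', smul_add]
      unfold act
      rw [Matrix.mul_smul, Matrix.smul_mul, smul_comm]

/-- The dimension of the space of crossed homomorphisms. -/
noncomputable def crossedDim {G : Type} [Group G] (ρ : G → Matrix (Fin 4) (Fin 4) ℝ) : ℕ :=
  Module.finrank ℝ (CrossedHoms ρ)

/-- The dimension of the space of crossed homomorphisms of the subgroup `H` of the group of deck
transformations, for the linear holonomy. -/
noncomputable def twistedDim (K : AffineTriangulation 4) (H : Subgroup K.Γ) : ℕ :=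
  crossedDim fun g : H => linMat (K.hol g)

theorem linMat_hol (K : AffineTriangulation 4) (g : K.Γ) : linMat (K.hol g) = K.lin g := by
  ext i j
  show (K.hol g).linear (Pi.single j 1) i = LinearMap.toMatrix'
    ((K.hol g).linear : (Fin 4 → ℝ) →ₗ[ℝ] (Fin 4 → ℝ)) i j
  rw [LinearMap.toMatrix'_apply]
  rfl

theorem twistedDim_eq (K : AffineTriangulation 4) (H : Subgroup K.Γ) :
    twistedDim K H = Module.finrank ℝ (Z1 (K.lin.comp H.subtype)) := by
  have h0 : (fun g : H => linMat (K.hol g)) = fun g : H => (K.lin.comp H.subtype) g := by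
    funext g
    exact linMat_hol K g
  have h : CrossedHoms (fun g : H => linMat (K.hol g)) = Z1 (K.lin.comp H.subtype) := by
    rw [h0]
    rfl
  unfold twistedDim crossedDim
  rw [h]

/-- Let `K` be a triangulated covering, connected and with vanishing first real cohomology, of a
closed affine 4-manifold, `H` a subgroup of finite index of its group of deck transformations and
`S` a finite set of generators of `H`.  Then the Euler characteristic of the manifold is bounded in
terms of the crossed homomorphisms of `H` with values in twisted alternating forms, and it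
vanishes if `6 |S| < 5 [Γ : H] + 6`. -/
theorem result (K : AffineTriangulation 4) (hc : Connected K) (h1 : H1Zero K)
    (H : Subgroup K.Γ) (hH : H.FiniteIndex) (S : Finset K.Γ)
    (hS : Subgroup.closure (S : Set K.Γ) = H) :
    8 * (H.index * |K.eulerChar|) + 6 ≤ 3 * (H.index * K.eulerChar) + twistedDim K H ∧
      twistedDim K H ≤ 6 * S.card ∧
      (6 * S.card < 5 * H.index + 6 → K.eulerChar = 0) := by
  rw [twistedDim_eq]
  exact final_main K hc h1 H hH S hS

end Pool.Agent.Results.MP_1fa9a4_gt.RankGradient
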