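import Pool.Agent.Hhelper9.Chern.Sides2

/-!
# Closed affine manifolds whose affine holonomy preserves the two sides of a hypersurface

Let `M` be a closed affine manifold with developing map `D : X → Ev` (`Ev` a Euclidean space of
dimension `n`), deck group `Γ` and affine holonomy `h`.  Let `φ : Ev → ℝ` be a `C¹` function whose
differential does not vanish on the hypersurface `{φ = 0}` and such that every `h g` maps each of
the two sides `{φ < 0}` and `{φ > 0}` into itself.

The affine group acts linearly on `Ev × ℝ` (`homAct`: the map `y ↦ L y + b` acts by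
`(v, t) ↦ (L v + t b, t)`); the affine space `Ev` is the slice `t = 1` and the vectors (points at
infinity) are the slice `t = 0`.  Suppose that each side `W` is contained in a contractible
`Γ`-space `Z` with an equivariant map `ψ : Z → Ev × ℝ` which is `y ↦ (y, 1)` on `W` and does not meet
the multiples `t • (D x, 1)` of the points `D x` of the developing image outside `W`
(`IsExtension D h W j ψ`).  Then `M` has a nowhere vanishing smooth vector field.

Special cases (proved from the general case in `Pool/Agent/Hhelper9/Chern/Special.lean`):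
* both sides are contractible (`Z = W`), for instance `φ (x, t) = t - g x` with `g` a `C¹` function;
* `φ = 1`: then the only condition is that `Γ` acts on a contractible space `Z` with an
  equivariant map `ψ : Z → Ev × ℝ` which avoids the multiples of all `(D x, 1)`; for instance `Z` is a
  contractible holonomy-invariant subset of the complement of the developing image, or a
  contractible set of nonzero vectors invariant under the linear holonomy.
-/

open Set Manifold
open scoped ContDiff
open Pool.Agent.Hhelper9.Chern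

namespace Pool.Agent.Results.MP_1fa9a4_gt.TwoSides

variable {Ev : Type*} [NormedAddCommGroup Ev] [InnerProductSpace ℝ Ev] [FiniteDimensional ℝ Ev]

/-- `φ` is a `C¹` function and its differential does not vanish on `{φ = 0}`. -/
def IsRegular (φ : Ev → ℝ) : Prop :=
  ContDiff ℝ 1 φ ∧ ∀ y, φ y = 0 → fderiv ℝ φ y ≠ 0

/-- All affine transformations `h g` map each of the two sides of `{φ = 0}` into itself. -/
def PreservesSides {Γ : Type*} [Group Γ] (h : Γ →* (Ev ≃ᵃ[ℝ] Ev)) (φ : Ev → ℝ) : Prop :=
  ∀ (g : Γ) (y : Ev), (φ y < 0 → φ (act h g y) < 0) ∧ (0 < φ y → 0 < φ (act h g y))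

/-- The type of `C^∞` sections of the tangent bundle (Mathlib's) of the manifold `M`. -/
abbrev SmoothVectorField (Ev : Type*) [NormedAddCommGroup Ev] [InnerProductSpace ℝ Ev]
    [FiniteDimensional ℝ Ev] (M : Type*) [TopologicalSpace M] [ChartedSpace Ev M]
    [IsManifold 𝓘(ℝ, Ev) ∞ M] : Type _ :=
  Cₛ^∞⟮𝓘(ℝ, Ev); Ev, (TangentSpace 𝓘(ℝ, Ev) : M → Type _)⟯

/-- The smooth manifold `M` has a nowhere vanishing `C^∞` vector field. -/
def HasNonvanishingField (Ev : Type*) [NormedAddCommGroup Ev] [InnerProductSpace ℝ Ev]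
    [FiniteDimensional ℝ Ev] (M : Type*) [TopologicalSpace M] [ChartedSpace Ev M]
    [IsManifold 𝓘(ℝ, Ev) ∞ M] : Prop :=
  ∃ v : SmoothVectorField Ev M, ∀ m, v m ≠ 0

theorem result {M X Γ : Type*} [TopologicalSpace M] [T2Space M]
    [CompactSpace M] [ChartedSpace Ev M] [IsManifold 𝓘(ℝ, Ev) ∞ M]
    [TopologicalSpace X] [Group Γ] [MulAction Γ X] [ContinuousConstSMul Γ X]
    (p : X → M) (D : X → Ev) (h : Γ →* (Ev ≃ᵃ[ℝ] Ev)) (hd : IsDeveloping p D h)
    (hfree : ∀ (g : Γ) (x : X), g • x = x → g = 1)
    (φ : Ev → ℝ) (hφ : IsRegular φ) (hinv : PreservesSides h φ)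
    {Z₁ Z₂ : Type*} [TopologicalSpace Z₁] [MulAction Γ Z₁] [ContinuousConstSMul Γ Z₁]
    [TopologicalSpace Z₂] [MulAction Γ Z₂] [ContinuousConstSMul Γ Z₂]
    (j₁ : {y | φ y < 0} → Z₁) (ψ₁ : Z₁ → Ev × ℝ) (h₁ : IsExtension D h {y | φ y < 0} j₁ ψ₁)
    (j₂ : {y | 0 < φ y} → Z₂) (ψ₂ : Z₂ → Ev × ℝ) (h₂ : IsExtension D h {y | 0 < φ y} j₂ ψ₂) :
    HasNonvanishingField Ev M := by
  have hcont : Continuous φ := hφ.1.continuous
  refine sides_case_ext hd hfree {y | φ y < 0} {y | 0 < φ y} (isOpen_lt hcont continuous_const)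
    (isOpen_lt continuous_const hcont) ?_ (fun g y hy => (hinv g y).1 hy)
    (fun g y hy => (hinv g y).2 hy) h₁ h₂ ?_
  · rw [Set.disjoint_left]
    intro y hy hy'
    exact lt_asymm (show φ y < 0 from hy) (show 0 < φ y from hy')
  · intro y h1 h2
    have h0 : φ y = 0 := le_antisymm (not_lt.1 h2) (not_lt.1 h1)
    have hne := hφ.2 y h0
    have hstr : HasStrictFDerivAt φ (fderiv ℝ φ y) y :=
      (hφ.1.contDiffAt).hasStrictFDerivAt (by norm_num)
    obtain ⟨w, hw⟩ : ∃ w, fderiv ℝ φ y w ≠ 0 := by
      by_contra hcon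
      push Not at hcon
      exact hne (ContinuousLinearMap.ext hcon)
    obtain ⟨v, hv⟩ : ∃ v, fderiv ℝ φ y v < 0 := by
      rcases lt_or_gt_of_ne hw with h' | h'
      · exact ⟨w, h'⟩
      · exact ⟨-w, by rw [map_neg]; linarith⟩
    refine ⟨v, HC.of_fderiv hstr hv, ?_⟩
    have hstr' : HasStrictFDerivAt (fun z => -φ z) (-fderiv ℝ φ y) y := hstr.neg
    have h3 := HC.of_fderiv (φ := fun z => -φ z) (v := -v) hstr' (by
      change -(fderiv ℝ φ y (-v)) < 0
      rw [map_neg]; linarith)
    simpa using h3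

end Pool.Agent.Results.MP_1fa9a4_gt.TwoSides
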